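import Mathlib
import Pool.Agent.W663.SX.Stm

set_option autoImplicit false
open scoped Matrix.Norms.L2Operator Matrix ComplexOrder

namespace Pool.Agent.W880.SX.BN

theorem sq_mulVec {k : ℕ} (M : Matrix (Fin k) (Fin k) ℂ) (x : Fin k → ℂ) :
    ∑ j, ‖(M *ᵥ x) j‖ ^ 2 ≤ ‖M‖ ^ 2 * ∑ i, ‖x i‖ ^ 2 := by
  have h := Matrix.l2_opNorm_mulVec M ((EuclideanSpace.equiv (Fin k) ℂ).symm x)
  have h2 := pow_le_pow_left₀ (norm_nonneg _) h 2
  rw [mul_pow, EuclideanSpace.norm_sq_eq, EuclideanSpace.norm_sq_eq] at h2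
  simpa using h2

theorem t : Pool.Agent.W663.SX.S_BN := by
  intro k lev M
  set B : Matrix (Fin k) (Fin k) ℂ :=
    Matrix.of fun j i => if lev j = lev i + 1 then M j i else 0 with hB
  rw [Matrix.l2_opNorm_def B]
  refine ContinuousLinearMap.opNorm_le_bound _ (norm_nonneg _) ?_
  intro v
  obtain ⟨x, hx⟩ : ∃ x : Fin k → ℂ, x = v.ofLp := ⟨_, rfl⟩
  have key : ∑ j, ‖(B *ᵥ x) j‖ ^ 2 ≤ ‖M‖ ^ 2 * ∑ i, ‖x i‖ ^ 2 := by
    set N : ℕ := Finset.univ.sup lev + 1 with hN
    have hlev : ∀ i, lev i < N := fun i =>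
      Nat.lt_succ_of_le (Finset.le_sup (f := lev) (Finset.mem_univ i))
    set X : ℕ → Fin k → ℂ := fun n i => if lev i = n then x i else 0 with hX
    have h1 : ∀ j, ‖(B *ᵥ x) j‖ ^ 2 ≤ ∑ n ∈ Finset.range N, ‖(M *ᵥ (X n)) j‖ ^ 2 := by
      intro j
      rcases Nat.eq_zero_or_pos (lev j) with h0 | h0
      · have : (B *ᵥ x) j = 0 := by
          simp only [Matrix.mulVec, dotProduct, hB, Matrix.of_apply]
          refine Finset.sum_eq_zero fun i _ => ?_
          rw [if_neg (by omega), zero_mul]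
        rw [this, norm_zero]
        have := Finset.sum_nonneg (s := Finset.range N)
          (f := fun n => ‖(M *ᵥ (X n)) j‖ ^ 2) (fun n _ => by positivity)
        simpa using this
      · have : (B *ᵥ x) j = (M *ᵥ (X (lev j - 1))) j := by
          simp only [Matrix.mulVec, dotProduct, hB, Matrix.of_apply, hX]
          refine Finset.sum_congr rfl fun i _ => ?_
          by_cases hi : lev i = lev j - 1
          · rw [if_pos (by omega), if_pos hi]
          · rw [if_neg (by omega), if_neg hi]; simp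
        rw [this]
        exact Finset.single_le_sum (f := fun n => ‖(M *ᵥ (X n)) j‖ ^ 2)
          (fun n _ => by positivity) (Finset.mem_range.2 (by have := hlev j; omega))
    calc ∑ j, ‖(B *ᵥ x) j‖ ^ 2 ≤ ∑ j, ∑ n ∈ Finset.range N, ‖(M *ᵥ (X n)) j‖ ^ 2 :=
          Finset.sum_le_sum fun j _ => h1 j
      _ = ∑ n ∈ Finset.range N, ∑ j, ‖(M *ᵥ (X n)) j‖ ^ 2 := Finset.sum_comm
      _ ≤ ∑ n ∈ Finset.range N, ‖M‖ ^ 2 * ∑ i, ‖X n i‖ ^ 2 :=
          Finset.sum_le_sum fun n _ => sq_mulVec M (X n)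
      _ = ‖M‖ ^ 2 * ∑ i, ∑ n ∈ Finset.range N, ‖X n i‖ ^ 2 := by
          rw [← Finset.mul_sum, Finset.sum_comm]
      _ = ‖M‖ ^ 2 * ∑ i, ‖x i‖ ^ 2 := by
          congr 1
          refine Finset.sum_congr rfl fun i _ => ?_
          rw [Finset.sum_eq_single (lev i)]
          · simp [hX]
          · intro n _ hn
            simp [hX, Ne.symm hn]
          · intro h
            exact absurd (Finset.mem_range.2 (hlev i)) h
  have h3 : ‖(Matrix.toEuclideanLin (𝕜 := ℂ) (m := Fin k) (n := Fin k) B) v‖ ^ 2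
      ≤ (‖M‖ * ‖v‖) ^ 2 := by
    rw [mul_pow, EuclideanSpace.norm_sq_eq, EuclideanSpace.norm_sq_eq]
    rw [← hx]; simpa [Matrix.toLpLin_apply, hx] using key
  have h4 := abs_le_of_sq_le_sq h3 (by positivity)
  rw [abs_of_nonneg (norm_nonneg _)] at h4
  exact h4

end Pool.Agent.W880.SX.BN
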