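import Mathlib
import Pool.Agent.W663.SX.Stm

set_option autoImplicit false
open scoped Matrix.Norms.L2Operator Matrix ComplexOrder

namespace Pool.Agent.W880.SX.ST

open Pool.Agent.W663.SX (St)

variable {A : Type} [CStarAlgebra A] {ρ : A →ₗ[ℂ] ℂ}

theorem st_star (h : St ρ) (x : A) : ρ (star x) = star (ρ x) := by
  have h0 := h.im x
  have h1 := h.im (x + 1)
  have h2 := h.im (x + Complex.I • (1 : A))
  have e1 : star (x + 1) * (x + 1) = star x * x + star x + x + 1 := by
    simp only [star_add, star_one]; noncomm_ring
  have e2 : star (x + Complex.I • (1 : A)) * (x + Complex.I • (1 : A))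
      = star x * x + Complex.I • star x - Complex.I • x + 1 := by
    simp only [star_add, star_smul, star_one, add_mul, mul_add, smul_mul_assoc, mul_smul_comm,
      mul_one, one_mul, smul_smul]
    have : star Complex.I = - Complex.I := by simp
    rw [this]
    have h3 : Complex.I * -Complex.I = 1 := by rw [mul_neg, Complex.I_mul_I, neg_neg]
    rw [smul_add, smul_smul, h3]
    simp only [one_smul, neg_smul]
    abel
  rw [e1] at h1
  rw [e2] at h2
  simp only [map_add, map_sub, map_smul, h.one, smul_eq_mul, Complex.add_im, Complex.sub_im,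
    Complex.one_im, Complex.mul_im, Complex.I_re, Complex.I_im, h0] at h1 h2
  apply Complex.ext
  · simp only [Complex.star_def, Complex.conj_re]; linarith
  · simp only [Complex.star_def, Complex.conj_im]; linarith

theorem st_cs (h : St ρ) (x y : A) :
    ‖ρ (star x * y)‖ ^ 2 ≤ (ρ (star x * x)).re * (ρ (star y * y)).re := by
  letI c : PreInnerProductSpace.Core ℂ A :=
    { inner := fun x y => ρ (star x * y)
      conj_inner_symm := fun x y => by
        change star (ρ (star y * x)) = ρ (star x * y)
        rw [← st_star h]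
        simp
      re_inner_nonneg := fun x => h.nn x
      add_left := fun x y z => by
        change ρ (star (x + y) * z) = ρ (star x * z) + ρ (star y * z)
        rw [star_add, add_mul, map_add]
      smul_left := fun x y r => by
        change ρ (star (r • x) * y) = star r * ρ (star x * y)
        rw [star_smul, smul_mul_assoc, map_smul, smul_eq_mul] }
  have h1 := InnerProductSpace.Core.inner_mul_inner_self_le (𝕜 := ℂ) (F := A) x y
  have h2 : ‖ρ (star x * y)‖ * ‖ρ (star y * x)‖ ≤ (ρ (star x * x)).re * (ρ (star y * y)).re := h1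
  have h3 : ‖ρ (star y * x)‖ = ‖ρ (star x * y)‖ := by
    have : star y * x = star (star x * y) := by simp
    rw [this, st_star h, norm_star]
  rw [h3] at h2
  rw [sq]
  exact h2

theorem st_bd (h : St ρ) (a x : A) :
    (ρ (star (a * x) * (a * x))).re ≤ ‖a‖ ^ 2 * (ρ (star x * x)).re := by
  letI := CStarAlgebra.spectralOrder A
  haveI := CStarAlgebra.spectralOrderedRing A
  have h1 : star a * a ≤ algebraMap ℝ A (‖a‖ ^ 2) := CStarAlgebra.star_mul_le_algebraMap_norm_sq
  obtain ⟨b, hb⟩ := CStarAlgebra.nonneg_iff_eq_star_mul_self.1 (sub_nonneg.2 h1)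
  have h2 := h.nn (b * x)
  have e : star (b * x) * (b * x) = ((‖a‖ ^ 2 : ℝ) : ℂ) • (star x * x) - star (a * x) * (a * x) := by
    have : star (b * x) * (b * x) = star x * (star b * b) * x := by
      rw [star_mul]; noncomm_ring
    rw [this, ← hb, mul_sub, sub_mul, star_mul]
    congr 1
    · rw [Algebra.algebraMap_eq_smul_one, mul_smul_comm, smul_mul_assoc, mul_one]
      exact (Complex.coe_smul _ _).symm
    · noncomm_ring
  rw [e, map_sub, map_smul, smul_eq_mul, Complex.sub_re, Complex.re_ofReal_mul] at h2
  linarith

theorem t : Pool.Agent.W663.SX.S_ST := by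
  intro A _ ρ h
  refine ⟨st_star h, st_cs h, st_bd h, fun y => ?_⟩
  have h1 := st_cs h 1 y
  have h2 := st_bd h y 1
  simp only [star_one, one_mul, mul_one, h.one, Complex.one_re] at h1 h2
  exact abs_le_of_sq_le_sq (h1.trans h2) (norm_nonneg _) |>.trans' (le_abs_self _) 

end Pool.Agent.W880.SX.ST
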